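import Mathlib
import Pool.Agent.X195.AHG

/-!
Problem MP_2bf34e_al: asymptotic Hilbert series of generic ideals in exterior algebras.
-/

namespace Pool.Agent.Results.MP_2bf34e_al.AsymptoticExteriorSeries

open Module

/-- the two-sided ideal generated by the entries of `f`, as a subspace -/
def idealOf (K : Type*) {A : Type*} [Field K] [Ring A] [Algebra K A] {r : ℕ} (f : Fin r → A) :
    Submodule K A :=
  ((TwoSidedIdeal.span (Set.range f)).asIdeal).restrictScalars K

/-- For a graded algebra `A` with graded pieces `G k`, `pieceDim G f k` is the dimension of the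
image of `G k` in the quotient of `A` by the two-sided ideal generated by the entries of `f`,
that is of the degree `k` piece of this quotient. -/
noncomputable def pieceDim {K A : Type*} [Field K] [Ring A] [Algebra K A]
    (G : ℕ → Submodule K A) {r : ℕ} (f : Fin r → A) (k : ℕ) : ℕ :=
  finrank K ((G k).map (idealOf K f).mkQ)

/-- `f` is a tuple of homogeneous elements of degrees `d` for which every graded piece of the
quotient has its minimal dimension (among all tuples of homogeneous elements of degrees `d`). -/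
def IsGenericTuple {K A : Type*} [Field K] [Ring A] [Algebra K A]
    (G : ℕ → Submodule K A) {r : ℕ} (d : Fin r → ℕ) (f : Fin r → A) : Prop :=
  (∀ i, f i ∈ G (d i)) ∧
    ∀ g : Fin r → A, (∀ i, g i ∈ G (d i)) → ∀ k, pieceDim G f k ≤ pieceDim G g k

/-- there is a generic tuple of degrees `d` -/
def HasGenericTuple {K A : Type*} [Field K] [Ring A] [Algebra K A]
    (G : ℕ → Submodule K A) {r : ℕ} (d : Fin r → ℕ) : Prop :=
  ∃ f : Fin r → A, IsGenericTuple G d f

/-- the Hilbert series of the quotient, as a power series with rational coefficients -/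
noncomputable def hilbertSeries {K A : Type*} [Field K] [Ring A] [Algebra K A]
    (G : ℕ → Submodule K A) {r : ℕ} (f : Fin r → A) : PowerSeries ℚ :=
  PowerSeries.mk (fun k => (pieceDim G f k : ℚ))

/-- the series `P(t)`: each even `d i` gives `1 - t^(d i)`, each odd one `(1 + t^(d i))⁻¹` -/
noncomputable def limitSeries {r : ℕ} (d : Fin r → ℕ) : PowerSeries ℚ :=
  ∏ i, if Even (d i) then 1 - PowerSeries.X ^ (d i) else (1 + PowerSeries.X ^ (d i))⁻¹

/-- for every generic tuple of degrees `d` the coefficients of `t^k` in the Hilbert series of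
the quotient divided by `(1 + t)^n` and in `P(t)` agree -/
def CoeffAgrees {K A : Type*} [Field K] [Ring A] [Algebra K A]
    (G : ℕ → Submodule K A) {r : ℕ} (d : Fin r → ℕ) (n k : ℕ) : Prop :=
  ∀ f : Fin r → A, IsGenericTuple G d f →
    PowerSeries.coeff k (hilbertSeries G f * ((1 + PowerSeries.X) ^ n)⁻¹) =
      PowerSeries.coeff k (limitSeries d)

/-- the asymptotic statement for the exterior algebras of `K^n` over the field `K` -/
def LimitClaim (K : Type*) [Field K] : Prop :=
  ∀ (r : ℕ) (d : Fin r → ℕ), 1 ≤ r → (∀ i, 1 ≤ d i) → ∀ k : ℕ, ∃ N : ℕ, ∀ n, N ≤ n →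
    CoeffAgrees (fun j => ⋀[K]^j (Fin n → K)) d n k

open X195.AHB X195.AHF X195.AHG

/-- extension of a tuple by zero -/
noncomputable def ext {K : Type*} [Field K] {n r : ℕ} (f : Fin r → ExteriorAlgebra K (Fin n → K)) :
    ℕ → ExteriorAlgebra K (Fin n → K) := fun l => if h : l < r then f ⟨l, h⟩ else 0

/-- extension of degrees by one -/
def dext {r : ℕ} (d : Fin r → ℕ) : ℕ → ℕ := fun l => if h : l < r then d ⟨l, h⟩ else 1

section
variable {K : Type*} [Field K] {n r : ℕ} {d : Fin r → ℕ}

theorem ext_mem {f : Fin r → ExteriorAlgebra K (Fin n → K)} (hf : ∀ i, f i ∈ ⋀[K]^(d i) (Fin n → K))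
    (l : ℕ) : ext f l ∈ ⋀[K]^(dext d l) (Fin n → K) := by
  unfold ext dext
  split_ifs with h
  · exact hf _
  · exact Submodule.zero_mem _

theorem dext_pos (hd : ∀ i, 1 ≤ d i) (l : ℕ) : 1 ≤ dext d l := by
  unfold dext
  split_ifs with h
  · exact hd _
  · exact le_rfl

theorem II_mul_right (f : ℕ → ExteriorAlgebra K (Fin n → K)) (i : ℕ)
    (b : ExteriorAlgebra K (Fin n → K)) : ∀ x ∈ II f i, x * b ∈ II f i := by
  induction i with
  | zero =>
    intro x hx
    simp only [II, Submodule.mem_bot] at hx ⊢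
    rw [hx, zero_mul]
  | succ i ih =>
    intro x hx
    simp only [II] at hx ⊢
    obtain ⟨y, hy, z, hz, rfl⟩ := Submodule.mem_sup.1 hx
    obtain ⟨a, rfl⟩ := hz
    rw [add_mul]
    apply Submodule.add_mem
    · exact Submodule.mem_sup_left (ih y hy)
    · apply Submodule.mem_sup_right
      exact ⟨a * b, by simp [mul_assoc]⟩

theorem II_mul_left {f : ℕ → ExteriorAlgebra K (Fin n → K)} {e : ℕ → ℕ}
    (hf : ∀ i, f i ∈ ⋀[K]^(e i) (Fin n → K)) (i : ℕ)
    (b : ExteriorAlgebra K (Fin n → K)) : ∀ x ∈ II f i, b * x ∈ II f i := by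
  intro x hx
  rw [← (eb K n).sum_repr b, Finset.sum_mul]
  apply Submodule.sum_mem
  intro S _
  rw [smul_mul_assoc]
  exact Submodule.smul_mem _ _ (mul_II hf (eb_mem S) i x hx)

theorem mem_II_of_lt (f : ℕ → ExteriorAlgebra K (Fin n → K)) {l i : ℕ} (h : l < i) :
    f l ∈ II f i := by
  induction i with
  | zero => omega
  | succ i ih =>
    simp only [II]
    by_cases hl : l = i
    · subst hl
      exact Submodule.mem_sup_right ⟨1, by simp⟩
    · exact Submodule.mem_sup_left (ih (by omega))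

theorem span_iff {f : Fin r → ExteriorAlgebra K (Fin n → K)}
    (hf : ∀ i, f i ∈ ⋀[K]^(d i) (Fin n → K)) (x : ExteriorAlgebra K (Fin n → K)) :
    x ∈ TwoSidedIdeal.span (Set.range f) ↔ x ∈ II (ext f) r := by
  constructor
  · intro hx
    let J : TwoSidedIdeal (ExteriorAlgebra K (Fin n → K)) :=
      TwoSidedIdeal.mk' (II (ext f) r : Set (ExteriorAlgebra K (Fin n → K)))
        (Submodule.zero_mem _) (fun h1 h2 => Submodule.add_mem _ h1 h2)
        (fun h => Submodule.neg_mem _ h) (fun {a y} h => II_mul_left (ext_mem hf) r a y h)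
        (fun {y a} h => II_mul_right (ext f) r a y h)
    have hJ : ∀ y, y ∈ J ↔ y ∈ II (ext f) r := fun y => TwoSidedIdeal.mem_mk' _ _ _ _ _ _ y
    have hle : TwoSidedIdeal.span (Set.range f) ≤ J := by
      rw [TwoSidedIdeal.span_le]
      rintro _ ⟨i, rfl⟩
      have h1 : ext f i.1 = f i := by unfold ext; rw [dif_pos i.2]
      have h2 := mem_II_of_lt (ext f) i.2
      rw [h1] at h2
      exact (hJ _).2 h2
    exact (hJ x).1 (hle hx)
  · have key : ∀ i, i ≤ r → ∀ y ∈ II (ext f) i, y ∈ TwoSidedIdeal.span (Set.range f) := by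
      intro i
      induction i with
      | zero =>
        intro _ y hy
        simp only [II, Submodule.mem_bot] at hy
        rw [hy]
        exact TwoSidedIdeal.zero_mem _
      | succ i ih =>
        intro hi y hy
        simp only [II] at hy
        obtain ⟨y', hy', z, hz, rfl⟩ := Submodule.mem_sup.1 hy
        obtain ⟨a, rfl⟩ := hz
        apply TwoSidedIdeal.add_mem
        · exact ih (by omega) y' hy'
        · rw [LinearMap.mulLeft_apply]
          apply TwoSidedIdeal.mul_mem_right
          apply TwoSidedIdeal.subset_span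
          refine ⟨⟨i, by omega⟩, ?_⟩
          unfold ext; rw [dif_pos (show i < r by omega)]
    exact key r le_rfl x

theorem pieceDim_eq {f : Fin r → ExteriorAlgebra K (Fin n → K)}
    (hf : ∀ i, f i ∈ ⋀[K]^(d i) (Fin n → K)) (k : ℕ) :
    pieceDim (fun j => ⋀[K]^j (Fin n → K)) f k + Dm (ext f) (dext d) r k = n.choose k := by
  let I : Submodule K (ExteriorAlgebra K (Fin n → K)) :=
    ((TwoSidedIdeal.span (Set.range f)).asIdeal).restrictScalars K
  have e0 : pieceDim (fun j => ⋀[K]^j (Fin n → K)) f k = finrank K ((⋀[K]^k (Fin n → K)).map I.mkQ) := rfl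
  rw [e0]
  have h1 := LinearMap.finrank_range_add_finrank_ker (I.mkQ.domRestrict (⋀[K]^k (Fin n → K)))
  rw [finrank_gr, LinearMap.range_domRestrict] at h1
  rw [← h1]
  congr 1
  unfold Dm
  have h2 : LinearMap.ker (I.mkQ.domRestrict (⋀[K]^k (Fin n → K))) =
      (JJ (ext f) (dext d) r k).comap (⋀[K]^k (Fin n → K)).subtype := by
    ext x
    rw [Submodule.mem_comap, mem_JJ_iff (ext_mem hf), LinearMap.mem_ker,
      LinearMap.domRestrict_apply, Submodule.mkQ_apply, Submodule.Quotient.mk_eq_zero]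
    rw [Submodule.restrictScalars_mem, TwoSidedIdeal.mem_asIdeal, span_iff hf]
    exact ⟨fun h => ⟨h, x.2⟩, fun h => h.1⟩
  rw [h2]
  exact ((Submodule.comapSubtypeEquivOfLe (JJ_le_gr (ext_mem hf) r k)).finrank_eq).symm

theorem pieceDim_hq {f : Fin r → ExteriorAlgebra K (Fin n → K)}
    (hf : ∀ i, f i ∈ ⋀[K]^(d i) (Fin n → K)) (k : ℕ) :
    (pieceDim (fun j => ⋀[K]^j (Fin n → K)) f k : ℚ) = hq (ext f) (dext d) r k := by
  have h := pieceDim_eq hf k
  unfold hq
  rw [← h]
  push_cast
  ring

theorem ext_pencil (f g : Fin r → ExteriorAlgebra K (Fin n → K)) (s : K) :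
    ext (fun i => f i + s • (g i - f i)) = fun l => ext f l + s • (ext g l - ext f l) := by
  funext l
  unfold ext
  split_ifs with h
  · rfl
  · simp

/-- genericity, unfolded -/
def Gen' {K : Type*} [Field K] {n r : ℕ} (d : Fin r → ℕ)
    (f : Fin r → ExteriorAlgebra K (Fin n → K)) : Prop :=
  (∀ i, f i ∈ ⋀[K]^(d i) (Fin n → K)) ∧
    ∀ g : Fin r → ExteriorAlgebra K (Fin n → K), (∀ i, g i ∈ ⋀[K]^(d i) (Fin n → K)) →
      ∀ k, pieceDim (fun j => ⋀[K]^j (Fin n → K)) f k ≤ pieceDim (fun j => ⋀[K]^j (Fin n → K)) g k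

/-- the Hilbert series -/
noncomputable def hs {K : Type*} [Field K] {n r : ℕ}
    (f : Fin r → ExteriorAlgebra K (Fin n → K)) : PowerSeries ℚ :=
  PowerSeries.mk (fun k => (pieceDim (fun j => ⋀[K]^j (Fin n → K)) f k : ℚ))

theorem exists_generic [Infinite K] (d : Fin r → ℕ) :
    ∃ f : Fin r → ExteriorAlgebra K (Fin n → K), Gen' d f := by
  classical
  -- minimise the total dimension
  let T : (Fin r → ExteriorAlgebra K (Fin n → K)) → ℕ :=
    fun f => ∑ k ∈ Finset.range (n + 1), pieceDim (fun j => ⋀[K]^j (Fin n → K)) f k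
  let A : Set ℕ := {m | ∃ f : Fin r → ExteriorAlgebra K (Fin n → K),
    (∀ i, f i ∈ ⋀[K]^(d i) (Fin n → K)) ∧ T f = m}
  have hA : A.Nonempty := ⟨T 0, 0, fun i => Submodule.zero_mem _, rfl⟩
  obtain ⟨f, hf, hTf⟩ := Nat.sInf_mem hA
  refine ⟨f, hf, ?_⟩
  intro g hg k
  by_contra hlt
  push Not at hlt
  have hk : k < n + 1 := by
    by_contra hk
    have h1 := pieceDim_eq hf k
    rw [Nat.choose_eq_zero_of_lt (by omega)] at h1
    omega
  have h1 : ∀ᶠ s : K in Filter.cofinite, ∀ j ∈ Finset.range (n + 1),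
      Dm (ext f) (dext d) r j ≤ Dm (fun l => ext f l + s • (ext g l - ext f l)) (dext d) r j := by
    rw [Filter.eventually_all_finset]
    intro j _
    have := Dm_semicont (ext f) (ext g) (dext d) r j 0
    have e : (fun l => ext f l + (0 : K) • (ext g l - ext f l)) = ext f := by
      funext l; simp
    rw [e] at this
    exact this
  have h2 := Dm_semicont (ext f) (ext g) (dext d) r k 1
  have e : (fun l => ext f l + (1 : K) • (ext g l - ext f l)) = ext g := by
    funext l; simp
  rw [e] at h2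
  obtain ⟨s, h3, h4⟩ := (h1.and h2).exists
  obtain ⟨q, hq⟩ : ∃ q : Fin r → ExteriorAlgebra K (Fin n → K),
      q = fun i => f i + s • (g i - f i) := ⟨_, rfl⟩
  have hqm : ∀ i, q i ∈ ⋀[K]^(d i) (Fin n → K) := fun i => by
    rw [hq]
    exact Submodule.add_mem _ (hf i) (Submodule.smul_mem _ _ (Submodule.sub_mem _ (hg i) (hf i)))
  rw [← ext_pencil, ← hq] at h4
  have h5 : ∀ j ∈ Finset.range (n + 1), pieceDim (fun j => ⋀[K]^j (Fin n → K)) q j ≤ pieceDim (fun j => ⋀[K]^j (Fin n → K)) f j := by
    intro j hj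
    have := h3 j hj
    rw [← ext_pencil, ← hq] at this
    have a1 := pieceDim_eq hf j
    have a2 := pieceDim_eq hqm j
    omega
  have h6 : pieceDim (fun j => ⋀[K]^j (Fin n → K)) q k < pieceDim (fun j => ⋀[K]^j (Fin n → K)) f k := by
    have a1 := pieceDim_eq hg k
    have a2 := pieceDim_eq hqm k
    omega
  have h7 : T q < T f := Finset.sum_lt_sum h5 ⟨k, Finset.mem_range.2 hk, h6⟩
  have h8 : sInf A ≤ T q := Nat.sInf_le ⟨q, hqm, rfl⟩
  omega

theorem limitSeries_eq (d : Fin r → ℕ) : limitSeries d = PP (dext d) r := by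
  have h : ∀ i (e : ℕ → ℕ), PP e i = ∏ l ∈ Finset.range i, (if Even (e l) then
      1 - PowerSeries.X ^ (e l) else (1 + PowerSeries.X ^ (e l))⁻¹) := by
    intro i e
    induction i with
    | zero => simp [PP]
    | succ i ih => rw [Finset.prod_range_succ, ← ih]; rfl
  rw [h, Finset.prod_range]
  unfold limitSeries
  apply Finset.prod_congr rfl
  intro i _
  have : dext d i.1 = d i := by unfold dext; rw [dif_pos i.2]
  rw [this]

theorem coeff_transfer (n k : ℕ) (A P : PowerSeries ℚ)
    (h : ∀ j ≤ k, PowerSeries.coeff j A = PowerSeries.coeff j ((1 + PowerSeries.X) ^ n * P)) :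
    PowerSeries.coeff k (A * ((1 + PowerSeries.X) ^ n)⁻¹) = PowerSeries.coeff k P := by
  have h1 : PowerSeries.coeff k (A * ((1 + PowerSeries.X) ^ n)⁻¹) =
      PowerSeries.coeff k (((1 + PowerSeries.X) ^ n * P) * ((1 + PowerSeries.X) ^ n)⁻¹) := by
    rw [PowerSeries.coeff_mul, PowerSeries.coeff_mul]
    apply Finset.sum_congr rfl
    intro p hp
    rw [h p.1 (by have := Finset.HasAntidiagonal.mem_antidiagonal.1 hp; omega)]
  rw [h1, mul_comm, ← mul_assoc, PowerSeries.inv_mul_cancel, one_mul]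
  simp

theorem coeff_back (n : ℕ) (A P : PowerSeries ℚ) (M : ℕ)
    (h : ∀ j ≤ M, PowerSeries.coeff j (A * ((1 + PowerSeries.X) ^ n)⁻¹) = PowerSeries.coeff j P) :
    ∀ j ≤ M, PowerSeries.coeff j A = PowerSeries.coeff j ((1 + PowerSeries.X) ^ n * P) := by
  intro j hj
  have h0 : A = (A * ((1 + PowerSeries.X) ^ n)⁻¹) * (1 + PowerSeries.X) ^ n := by
    rw [mul_assoc, PowerSeries.inv_mul_cancel, mul_one]
    simp
  rw [mul_comm _ P]
  conv_lhs => rw [h0]
  rw [PowerSeries.coeff_mul, PowerSeries.coeff_mul]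
  apply Finset.sum_congr rfl
  intro p hp
  rw [h p.1 (by have := Finset.HasAntidiagonal.mem_antidiagonal.1 hp; omega)]

/-- characteristic zero: the limit holds -/
theorem limit_char_zero' [CharZero K] (r : ℕ) (d : Fin r → ℕ) (hd : ∀ i, 1 ≤ d i) (k : ℕ) (n : ℕ)
    (hn : (2 * k + 1) * (∑ i ∈ Finset.range r, dext d i) ≤ n)
    (f : Fin r → ExteriorAlgebra K (Fin n → K)) (hf : Gen' d f) :
    PowerSeries.coeff k (hs f * ((1 + PowerSeries.X) ^ n)⁻¹) =
        PowerSeries.coeff k (limitSeries d) := by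
  obtain ⟨B⟩ := exists_blocks r (2 * k + 1) (dext d) n hn
  rw [limitSeries_eq]
  apply coeff_transfer
  intro j hj
  unfold hs
  rw [PowerSeries.coeff_mk, pieceDim_hq hf.1]
  have hdp := dext_pos hd
  change _ = ee n (dext d) r j
  apply le_antisymm
  · -- compare with the special tuple
    let g : Fin r → ExteriorAlgebra K (Fin n → K) := fun i => sp K B i.1
    have hg : ∀ i, g i ∈ ⋀[K]^(d i) (Fin n → K) := by
      intro i
      have h1 := sp_mem (K := K) B i.1
      have h2 : dext d i.1 = d i := by unfold dext; rw [dif_pos i.2]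
      rw [h2] at h1
      exact h1
    have hext : ext g = sp K B := by
      funext l
      unfold ext
      split_ifs with h
      · rfl
      · unfold sp; rw [if_neg h]
    have h1 : (pieceDim (fun j => ⋀[K]^j (Fin n → K)) f j : ℚ) ≤ pieceDim (fun j => ⋀[K]^j (Fin n → K)) g j := by exact_mod_cast hf.2 g hg j
    rw [pieceDim_hq hf.1, pieceDim_hq hg, hext] at h1
    rw [hq_sp B hdp k le_rfl r le_rfl j hj] at h1
    exact h1
  · exact hq_all B hdp k le_rfl (ext f) (ext_mem hf.1) j hj

/-- characteristic zero: the limit holds -/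
theorem limit_char_zero [CharZero K] : LimitClaim K := by
  intro r d _ hd k
  exact ⟨(2 * k + 1) * (∑ i ∈ Finset.range r, dext d i),
    fun n hn f hf => limit_char_zero' r d hd k n hn f hf⟩

/-- degree two elements have vanishing p-th power in characteristic p -/
theorem pow_char_eq_zero (p : ℕ) [hp : Fact p.Prime] [CharP K p]
    {x : ExteriorAlgebra K (Fin n → K)} (hx : x ∈ ⋀[K]^2 (Fin n → K)) : x ^ p = 0 := by
  have : CharP (ExteriorAlgebra K (Fin n → K)) p :=
    charP_of_injective_algebraMap (ExteriorAlgebra.algebraMap_leftInverse (R := K) (Fin n → K)).injective p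
  have hx' := hx
  rw [gr_eq_span] at hx'
  have h2 : 2 ≤ p := hp.out.two_le
  suffices H : x ∈ ⋀[K]^2 (Fin n → K) ∧ x ^ p = 0 from H.2
  clear hx
  induction hx' using Submodule.span_induction with
  | mem x hx =>
    obtain ⟨S, hS, rfl⟩ := hx
    have h3 := eb_mem (K := K) S
    rw [hS] at h3
    refine ⟨h3, ?_⟩
    have h4 : eb K n S * eb K n S = 0 := by
      apply eb_mul_of_not_disjoint
      rw [disjoint_self]
      intro h; rw [h] at hS; simp at hS
    obtain ⟨q, rfl⟩ := Nat.exists_eq_add_of_le h2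
    rw [pow_add, pow_two, h4, zero_mul]
  | zero => exact ⟨Submodule.zero_mem _, zero_pow (by omega)⟩
  | add x y _ _ hx hy =>
    refine ⟨Submodule.add_mem _ hx.1 hy.1, ?_⟩
    have hc : Commute x y := by
      have := gr_comm hx.1 hy.1
      rw [show (-1 : K) ^ (2 * 2) = 1 by norm_num, one_smul] at this
      exact this
    rw [add_pow_char_of_commute p hc, hx.2, hy.2, add_zero]
  | smul c x _ hx =>
    exact ⟨Submodule.smul_mem _ _ hx.1, by rw [smul_pow, hx.2, smul_zero]⟩

/-- positive characteristic: the limit fails for one quadratic form -/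
theorem not_limit_char_pos [Infinite K] (p : ℕ) [hp : Fact p.Prime] [CharP K p] :
    ¬ LimitClaim K := by
  intro H
  have H1 : ∀ k : ℕ, ∃ N : ℕ, ∀ n, N ≤ n →
    ∀ f : Fin 1 → ExteriorAlgebra K (Fin n → K), Gen' (fun _ => 2) f →
      PowerSeries.coeff k (hs f * ((1 + PowerSeries.X) ^ n)⁻¹) =
        PowerSeries.coeff k (limitSeries (fun _ : Fin 1 => 2)) :=
    H 1 (fun _ => 2) le_rfl (fun _ => by omega)
  choose N hN using H1
  set n := ∑ k ∈ Finset.range (2 * p + 1), N k with hn
  have hNn : ∀ k, k ≤ 2 * p → N k ≤ n := by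
    intro k hk
    exact Finset.single_le_sum (f := N) (fun _ _ => Nat.zero_le _) (Finset.mem_range.2 (by omega))
  obtain ⟨f, hf⟩ := exists_generic (K := K) (n := n) (r := 1) (fun _ => 2)
  have h1 := coeff_back n (hs f) (limitSeries (fun _ : Fin 1 => 2)) (2 * p)
    (fun j hj => hN j n (hNn j hj) f hf)
  have hD : ∀ j, 2 ≤ j → j ≤ 2 * p → Dm (ext f) (dext (fun _ : Fin 1 => 2)) 1 j = n.choose (j - 2) := by
    intro j hj hj2
    have h2 := h1 j hj2
    rw [limitSeries_eq] at h2
    unfold hs at h2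
    rw [PowerSeries.coeff_mk, pieceDim_hq hf.1] at h2
    change _ = ee n (dext (fun _ : Fin 1 => 2)) 1 j at h2
    have e0 : dext (fun _ : Fin 1 => 2) 0 = 2 := rfl
    rw [ee_even n _ 0 j (by rw [e0]; exact even_two), e0, if_pos hj, ee_zero, ee_zero] at h2
    unfold hq at h2
    have h3 : (Dm (ext f) (dext (fun _ : Fin 1 => 2)) 1 j : ℚ) = (n.choose (j - 2) : ℕ) := by
      linarith
    exact_mod_cast h3
  -- injectivity
  have hinj : ∀ j, j + 2 ≤ 2 * p → ∀ a ∈ ⋀[K]^j (Fin n → K), f 0 * a = 0 → a = 0 := by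
    intro j hj a ha h0
    have h2 := hD (j + 2) (by omega) hj
    have e0 : dext (fun _ : Fin 1 => 2) 0 = 2 := rfl
    have e1 : JJ (ext f) (dext (fun _ : Fin 1 => 2)) 1 (j + 2) =
        (⋀[K]^j (Fin n → K)).map (LinearMap.mulLeft K (f 0)) := by
      simp only [JJ]
      rw [e0, if_pos (by omega), bot_sup_eq]
      rfl
    unfold Dm at h2
    rw [e1] at h2
    have h3 := LinearMap.finrank_range_add_finrank_ker
      ((LinearMap.mulLeft K (f 0)).domRestrict (⋀[K]^j (Fin n → K)))
    rw [LinearMap.range_domRestrict, h2, finrank_gr, Nat.add_sub_cancel] at h3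
    have h4 : finrank K (LinearMap.ker ((LinearMap.mulLeft K (f 0)).domRestrict (⋀[K]^j (Fin n → K)))) = 0 := by
      omega
    have h5 := Submodule.finrank_eq_zero.1 h4
    have h6 : (⟨a, ha⟩ : ↥(⋀[K]^j (Fin n → K))) ∈
        LinearMap.ker ((LinearMap.mulLeft K (f 0)).domRestrict (⋀[K]^j (Fin n → K))) := by
      rw [LinearMap.mem_ker]
      exact h0
    rw [h5, Submodule.mem_bot] at h6
    exact congrArg Subtype.val h6
  have hpow : ∀ q, q ≤ p → (f 0) ^ q ≠ 0 ∧ (f 0) ^ q ∈ ⋀[K]^(2 * q) (Fin n → K) := by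
    intro q
    induction q with
    | zero =>
      intro _
      refine ⟨by simp, ?_⟩
      simp only [pow_zero, mul_zero]
      exact Submodule.one_le.1 le_rfl
    | succ q ih =>
      intro hq
      obtain ⟨a1, a2⟩ := ih (by omega)
      refine ⟨?_, ?_⟩
      · intro h0
        apply a1
        apply hinj (2 * q) (by omega) _ a2
        rw [← pow_succ']; exact h0
      · rw [pow_succ']
        have := gr_mul (hf.1 0) a2
        rwa [show 2 + 2 * q = 2 * (q + 1) by ring] at this
  exact (hpow p le_rfl).1 (pow_char_eq_zero p (hf.1 0))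

end

/-- For every infinite field `K` generic tuples exist, and the asymptotic statement holds over `K`
if and only if `K` has characteristic zero. -/
theorem result (K : Type*) [Field K] [Infinite K] :
    (∀ (n r : ℕ) (d : Fin r → ℕ), HasGenericTuple (fun j => ⋀[K]^j (Fin n → K)) d) ∧
    (LimitClaim K ↔ CharZero K) := by
  refine ⟨fun n r d => exists_generic d, ?_, fun h => limit_char_zero⟩
  intro H
  obtain ⟨p, hp⟩ := CharP.exists K
  rcases CharP.char_is_prime_or_zero K p with h | h
  · have : Fact p.Prime := ⟨h⟩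
    exact absurd H (not_limit_char_pos p)
  · subst h
    exact CharP.charP_to_charZero K

end Pool.Agent.Results.MP_2bf34e_al.AsymptoticExteriorSeries
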